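import Pool.Agent.Run7.h909.T3.Stm
import Pool.Agent.Run7.h390.BD.Gl

/-!
# The building of `GL (Fin 3) K` as a typed triangle complex

Owner helper431 (piece BLD of helper909's project T3, on top of the complex of helper390).
The type of a lattice is the largest degree of the determinant of a matrix with rows in the
lattice, divided by the degree of the uniformizer, modulo 3.
-/

set_option autoImplicit false

namespace Pool.Agent.Run7.h431.T3

open _root_.Run7.h909.TD _root_.Run7.h909.NC Pool.Agent.Run7.h390.BD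

section links

variable {Λ : Type} [Lattice Λ] {t : Λ ≃o Λ}

theorem tg_l {h : Bl t} {L : Λ} {a b : Vx t}
    (e : _root_.Run7.h909.T3.Tg (Fl (Pool.Agent.Run7.h390.BD.Tg h)) (cl t L) a b) :
    ∃ M, cl t M = a ∧ Bt t L M := by
  obtain ⟨φ, ⟨_, h2⟩, e0, e1, _⟩ := e
  have h3 := h2 0
  rw [e0, show (0 : ℤ) + 1 = 1 by norm_num, e1] at h3
  exact nrm h3

theorem tg_r {h : Bl t} {L M N : Λ} (hM : Bt t L M) (hN : Bt t L N)
    (e : _root_.Run7.h909.T3.Tg (Fl (Pool.Agent.Run7.h390.BD.Tg h)) (cl t L) (cl t M) (cl t N)) :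
    M < N ∨ N < M := by
  obtain ⟨φ, ⟨_, h2⟩, _, e1, e2⟩ := e
  have h3 := h2 1
  rw [e1, show (1 : ℤ) + 1 = 2 by norm_num, e2] at h3
  exact cmp hM hN h3

theorem ch3 (h : Bl t) {L A B C : Λ} (hA : Bt t L A) (hC : Bt t L C) (h1 : A < B) (h2 : B < C) :
    False := h.ch L _ _ _ hA.1 h1 h2 hC.2

theorem four (h : Bl t) {L A B C D : Λ} (hA : Bt t L A) (hB : Bt t L B) (hC : Bt t L C)
    (hD : Bt t L D) (a1 : A < B) (a2 : C < B) (a3 : C < D) (a4 : A < D) (n1 : A ≠ C) (n2 : B ≠ D) :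
    False := by
  have x1 : A ≤ B ⊓ D := le_inf a1.le a4.le
  have x2 : C ≤ B ⊓ D := le_inf a2.le a3.le
  have y1 : A < B ⊓ D := by
    refine lt_of_le_of_ne x1 fun e => ?_
    rw [← e] at x2
    exact ch3 h hC hB (lt_of_le_of_ne x2 (Ne.symm n1)) a1
  have y2 : B ⊓ D < B := by
    refine lt_of_le_of_ne inf_le_left fun e => ?_
    have hh : B ≤ D := by
      rw [← e]; exact inf_le_right
    exact ch3 h hA hD a1 (lt_of_le_of_ne hh n2)
  exact ch3 h hA hB y1 y2

/-- the complex of helper390 is a triangle complex in the sense of helper909 -/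
theorem tri_bl (h : Bl t) : _root_.Run7.h909.T3.Tri (Pool.Agent.Run7.h390.BD.Tg h)
    (Fl (Pool.Agent.Run7.h390.BD.Tg h)) where
  adj := fun φ hφ i => hφ.2 i
  per := fun φ hφ => hφ.1
  shift := (cx_bl h).shift
  refl := (cx_bl h).refl
  g3 := by
    intro v a b c e1 e2 e3
    obtain ⟨L, rfl⟩ := cl_surj v
    obtain ⟨A, rfl, hA⟩ := tg_l e1
    obtain ⟨B, rfl, hB⟩ := tg_l e2
    obtain ⟨C, rfl, hC⟩ := tg_l e3
    rcases tg_r hA hB e1 with r1 | r1 <;> rcases tg_r hB hC e2 with r2 | r2 <;>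
      rcases tg_r hC hA e3 with r3 | r3
    · exact ch3 h hA hC r1 r2
    · exact ch3 h hA hC r1 r2
    · exact ch3 h hC hB r3 r1
    · exact ch3 h hA hB r3 r2
    · exact ch3 h hB hA r2 r3
    · exact ch3 h hB hC r1 r3
    · exact ch3 h hC hA r2 r1
    · exact ch3 h hC hA r2 r1
  g4 := by
    intro v a b c d e1 e2 e3 e4
    obtain ⟨L, rfl⟩ := cl_surj v
    obtain ⟨A, rfl, hA⟩ := tg_l e1
    obtain ⟨B, rfl, hB⟩ := tg_l e2
    obtain ⟨C, rfl, hC⟩ := tg_l e3
    obtain ⟨D, rfl, hD⟩ := tg_l e4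
    by_contra hcon
    rw [not_or] at hcon
    have n1 : A ≠ C := fun e => hcon.1 (by rw [e])
    have n2 : B ≠ D := fun e => hcon.2 (by rw [e])
    rcases tg_r hA hB e1 with r1 | r1
    · rcases tg_r hB hC e2 with r2 | r2
      · exact ch3 h hA hC r1 r2
      · rcases tg_r hC hD e3 with r3 | r3
        · rcases tg_r hD hA e4 with r4 | r4
          · exact ch3 h hC hA r3 r4
          · exact four h hA hB hC hD r1 r2 r3 r4 n1 n2
        · exact ch3 h hD hB r3 r2
    · rcases tg_r hB hC e2 with r2 | r2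
      · rcases tg_r hC hD e3 with r3 | r3
        · exact ch3 h hB hD r2 r3
        · rcases tg_r hD hA e4 with r4 | r4
          · exact four h hB hC hD hA r2 r3 r4 r1 n2 n1.symm
          · exact ch3 h hB hD r1 r4
      · exact ch3 h hC hA r2 r1
  g5 := by
    intro v a b c d e' e1 e2 e3 e4 e5
    obtain ⟨L, rfl⟩ := cl_surj v
    obtain ⟨A, rfl, hA⟩ := tg_l e1
    obtain ⟨B, rfl, hB⟩ := tg_l e2
    obtain ⟨C, rfl, hC⟩ := tg_l e3
    obtain ⟨D, rfl, hD⟩ := tg_l e4
    obtain ⟨E, rfl, hE⟩ := tg_l e5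
    rcases tg_r hA hB e1 with r1 | r1
    · rcases tg_r hB hC e2 with r2 | r2
      · exact ch3 h hA hC r1 r2
      rcases tg_r hC hD e3 with r3 | r3
      swap
      · exact ch3 h hD hB r3 r2
      rcases tg_r hD hE e4 with r4 | r4
      · exact ch3 h hC hE r3 r4
      rcases tg_r hE hA e5 with r5 | r5
      · exact ch3 h hE hB r5 r1
      · exact ch3 h hA hD r5 r4
    · rcases tg_r hB hC e2 with r2 | r2
      swap
      · exact ch3 h hC hA r2 r1
      rcases tg_r hC hD e3 with r3 | r3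
      · exact ch3 h hB hD r2 r3
      rcases tg_r hD hE e4 with r4 | r4
      swap
      · exact ch3 h hE hC r4 r3
      rcases tg_r hE hA e5 with r5 | r5
      · exact ch3 h hD hA r4 r5
      · exact ch3 h hB hE r1 r5

end links

section vals

variable {K : Type} [Field K] {deg : K → WithBot ℤ}

theorem det_bd (h : IsDegN deg) (X : Matrix (Fin 3) (Fin 3) K) (n : ℤ)
    (hX : ∀ i j, deg (X i j) ≤ (n : WithBot ℤ)) :
    deg X.det ≤ ((n + n + n : ℤ) : WithBot ℤ) := by
  rw [Matrix.det_apply']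
  refine deg_sum h _ _ _ fun σ _ => ?_
  rw [Fin.prod_univ_three]
  have h1 := deg_mul_le h (deg_mul_le h (hX (σ 0) 0) (hX (σ 1) 1)) (hX (σ 2) 2)
  have h2 : deg (((Equiv.Perm.sign σ : ℤˣ) : ℤ) : K) ≤ ((0 : ℤ) : WithBot ℤ) := by
    rcases Int.units_eq_one_or (Equiv.Perm.sign σ) with e | e <;> rw [e]
    · simp [h.one]
    · simp [h.neg, h.one]
  have h3 := deg_mul_le h h2 h1
  rwa [zero_add] at h3

/-- `z` is the largest degree of a determinant with rows in the lattice -/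
def IsV {h : IsDegN deg} (L : La h) (z : ℤ) : Prop :=
  (∃ X : Matrix (Fin 3) (Fin 3) K, (∀ i, X i ∈ L.S) ∧ deg X.det = (z : WithBot ℤ)) ∧
    ∀ X : Matrix (Fin 3) (Fin 3) K, (∀ i, X i ∈ L.S) → deg X.det ≤ (z : WithBot ℤ)

variable {h : IsDegN deg}

theorem IsV.uniq {L : La h} {z w : ℤ} (hz : IsV L z) (hw : IsV L w) : z = w := by
  obtain ⟨⟨X, hX, hXz⟩, h2⟩ := hz
  obtain ⟨⟨Y, hY, hYz⟩, h4⟩ := hw
  have h5 := h2 Y hY
  have h6 := h4 X hX
  rw [hYz] at h5
  rw [hXz] at h6
  exact le_antisymm (WithBot.coe_le_coe.1 h6) (WithBot.coe_le_coe.1 h5)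

theorem exists_V {u : K} {d : ℕ} (hu : Unif deg u d) (L : La h) : ∃ z, IsV L z := by
  obtain ⟨n, hn⟩ := L.bd
  obtain ⟨l, hl⟩ := L.op
  have hb : ∀ X : Matrix (Fin 3) (Fin 3) K, (∀ i, X i ∈ L.S) →
      deg X.det ≤ (((n : ℤ) + n + n : ℤ) : WithBot ℤ) := fun X hX =>
    det_bd h X n fun i j => hn _ (hX i) j
  obtain ⟨z, hz1, hz2⟩ := Int.exists_greatest_of_bdd
    (P := fun z : ℤ => ∃ X : Matrix (Fin 3) (Fin 3) K, (∀ i, X i ∈ L.S) ∧ deg X.det = (z : WithBot ℤ))
    ⟨(n : ℤ) + n + n, by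
      rintro z ⟨X, hX, hXz⟩
      have := hb X hX
      rw [hXz] at this
      exact WithBot.coe_le_coe.1 this⟩ (by
      have hne : ((u ^ l) • (1 : Matrix (Fin 3) (Fin 3) K)).det ≠ 0 := by
        rw [Matrix.det_smul, Matrix.det_one, mul_one]
        exact pow_ne_zero _ (pow_ne_zero _ (hu.ne h))
      obtain ⟨z, hz⟩ := deg_int h hne
      refine ⟨z, _, fun i => hl _ fun j => ?_, hz⟩
      rw [Matrix.smul_apply, smul_eq_mul, Matrix.one_apply]
      split_ifs
      · rw [mul_one, deg_pow h hu.val]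
        refine WithBot.coe_le_coe.2 ?_
        have := hu.pos
        nlinarith
      · rw [mul_zero, h.zero]
        exact bot_le)
  refine ⟨z, hz1, fun X hX => ?_⟩
  by_cases h0 : X.det = 0
  · rw [h0, h.zero]; exact bot_le
  · obtain ⟨w, hw⟩ := deg_int h h0
    rw [hw]
    exact WithBot.coe_le_coe.2 (hz2 w ⟨X, hX, hw⟩)

theorem IsV.gla {L : La h} {z : ℤ} (hz : IsV L z) (B : (Matrix (Fin 3) (Fin 3) K)ˣ)
    (hB : deg (B : Matrix (Fin 3) (Fin 3) K).det = 0) : IsV (gla B L) z := by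
  obtain ⟨⟨X, hX, hXz⟩, h2⟩ := hz
  have hrow : ∀ (Y C : Matrix (Fin 3) (Fin 3) K) (i : Fin 3), (Y * C) i = Matrix.vecMul (Y i) C := by
    intro Y C i
    funext j
    rfl
  have hB' : deg ((B⁻¹ : (Matrix (Fin 3) (Fin 3) K)ˣ) : Matrix (Fin 3) (Fin 3) K).det = 0 := by
    have h1 : (B : Matrix (Fin 3) (Fin 3) K).det *
        ((B⁻¹ : (Matrix (Fin 3) (Fin 3) K)ˣ) : Matrix (Fin 3) (Fin 3) K).det = 1 := by
      rw [← Matrix.det_mul, Units.mul_inv, Matrix.det_one]
    have h3 := congrArg deg h1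
    rw [h.mul, hB, zero_add, h.one] at h3
    exact h3
  constructor
  · refine ⟨X * ((B⁻¹ : (Matrix (Fin 3) (Fin 3) K)ˣ) : Matrix (Fin 3) (Fin 3) K), fun i => ?_, ?_⟩
    · rw [mem_gla, ← hrow, Matrix.mul_assoc, Units.inv_mul, Matrix.mul_one]
      exact hX i
    · rw [Matrix.det_mul, h.mul, hB', add_zero, hXz]
  · intro Y hY
    have h3 := h2 (Y * (B : Matrix (Fin 3) (Fin 3) K)) fun i => by
      rw [hrow]
      exact (mem_gla B L _).1 (hY i)
    rwa [Matrix.det_mul, h.mul, hB, add_zero] at h3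

theorem IsV.zp {L : La h} {z : ℤ} (hz : IsV L z) {u : K} {d : ℕ} (hu : Unif deg u d) (a : ℤ) :
    IsV ((scI h u (hu.ne h) ^ a : La h ≃o La h) L) (z - 3 * a * d) := by
  obtain ⟨⟨X, hX, hXz⟩, h2⟩ := hz
  have hu0 := hu.ne h
  have hd : ∀ (b : ℤ) (Y : Matrix (Fin 3) (Fin 3) K), deg (((u ^ b) • Y).det) =
      ((-(3 * b * d) : ℤ) : WithBot ℤ) + deg Y.det := by
    intro b Y
    rw [Matrix.det_smul, h.mul, deg_pow h (deg_zpow h hu.val b), Fintype.card_fin]
    congr 2
    push_cast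
    ring
  constructor
  · refine ⟨(u ^ a) • X, fun i => ?_, ?_⟩
    · rw [mem_zpow]
      show u ^ (-a) • ((u ^ a) • X i) ∈ L.S
      rw [smul_smul, ← zpow_add₀ hu0, neg_add_cancel, zpow_zero, one_smul]
      exact hX i
    · rw [hd, hXz, ← WithBot.coe_add]
      congr 1
      ring
  · intro Y hY
    have h3 := h2 ((u ^ (-a)) • Y) fun i => (mem_zpow hu0 a L _).1 (hY i)
    rw [hd] at h3
    by_cases h0 : Y.det = 0
    · rw [h0, h.zero]; exact bot_le
    · obtain ⟨w, hw⟩ := deg_int h h0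
      rw [hw, ← WithBot.coe_add, WithBot.coe_le_coe] at h3
      rw [hw]
      refine WithBot.coe_le_coe.2 ?_
      have e : -(3 * -a * (d : ℤ)) = 3 * a * d := by ring
      rw [e] at h3
      linarith

theorem IsV.lt {L M : La h} {z w : ℤ} (hM : IsV M z) (hL : IsV L w) (hlt : M < L) : z < w := by
  by_contra hzw
  rw [not_lt] at hzw
  refine absurd (show L ≤ M from fun y hy => ?_) (not_le_of_gt hlt)
  obtain ⟨⟨X, hX, hXz⟩, _⟩ := hM
  have hX0 : X.det ≠ 0 := by
    intro e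
    rw [e, h.zero] at hXz
    exact absurd hXz WithBot.bot_ne_coe
  have h1 : Matrix.vecMul (Matrix.cramer X.transpose y) X = X.det • y := by
    rw [← Matrix.mulVec_transpose, Matrix.mulVec_cramer, Matrix.det_transpose]
  have h2 : y = ∑ i, ((X.det)⁻¹ * Matrix.cramer X.transpose y i) • X i := by
    have h3 : y = (X.det)⁻¹ • Matrix.vecMul (Matrix.cramer X.transpose y) X := by
      rw [h1, smul_smul, inv_mul_cancel₀ hX0, one_smul]
    rw [Matrix.vecMul_eq_sum, Finset.smul_sum] at h3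
    exact h3.trans (Finset.sum_congr rfl fun i _ => by rw [smul_smul])
  rw [h2]
  refine AddSubgroup.sum_mem _ fun i _ => M.sm _ _ ?_ (hX i)
  rw [Matrix.cramer_transpose_apply]
  have h4 : deg (X.updateRow i y).det ≤ (w : WithBot ℤ) := by
    refine hL.2 _ fun j => ?_
    by_cases e : j = i
    · subst e
      rw [Matrix.updateRow_self]
      exact hy
    · rw [Matrix.updateRow_ne e]
      exact hlt.le (hX j)
  have h5 := deg_mul_le h (deg_inv h hXz).le h4
  refine h5.trans ?_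
  have h6 : -z + w ≤ 0 := by linarith
  exact_mod_cast h6

theorem dvd_deg (h : IsDegN deg) {u : K} {d : ℕ} (hu : Unif deg u d) {x : K} {n : ℤ}
    (hx : deg x = n) : (d : ℤ) ∣ n := by
  by_contra hnd
  have hd : (0 : ℤ) < d := by exact_mod_cast hu.pos
  have h1 : deg (x * u ^ (n / d + 1)) = ((n % d - d : ℤ) : WithBot ℤ) := by
    rw [h.mul, hx, deg_zpow h hu.val, ← WithBot.coe_add]
    congr 1
    have := Int.emod_add_mul_ediv n d
    linarith [this, show (n / (d : ℤ) + 1) * -(d : ℤ) = -((d : ℤ) * (n / d)) - d by ring]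
  have h2 : n % d < d := Int.emod_lt_of_pos _ hd
  have h2' : 0 < n % d := lt_of_le_of_ne (Int.emod_nonneg _ hd.ne')
    (fun e => hnd (Int.dvd_of_emod_eq_zero e.symm))
  have h3 := hu.min (x * u ^ (n / d + 1)) (by
    rw [h1]
    have : n % (d : ℤ) - d < 0 := by omega
    exact_mod_cast this)
  rw [h1, hu.val] at h3
  have := WithBot.coe_le_coe.1 h3
  omega

theorem IsV.dvd {L : La h} {z : ℤ} (hz : IsV L z) {u : K} {d : ℕ} (hu : Unif deg u d) :
    (d : ℤ) ∣ z := by
  obtain ⟨⟨X, _, hXz⟩, _⟩ := hz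
  exact dvd_deg h hu hXz

/-- **BLD**: the typed triangle complex of `GL (Fin 3) K` for a field with a degree function -/
theorem t_BLD {K : Type} [Field K] {deg : K → WithBot ℤ} (h : IsDegN deg) :
    ∃ (V : Type) (_ : MulAction (GL (Fin 3) K) V) (T : SimpleGraph V) (F : Set (ℤ → V))
      (τ : V → ZMod 3),
      _root_.Run7.h909.T3.Tri T F ∧ SC T F ∧ Ac (GL (Fin 3) K) T F ∧
      (∀ x y, T.Adj x y → τ x ≠ τ y) ∧
      (∀ g : GL (Fin 3) K, deg (g : Matrix (Fin 3) (Fin 3) K).det = 0 → ∀ x, τ (g • x) = τ x) ∧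
      ∀ x : V, ∃ n : ℕ, ∀ g : GL (Fin 3) K, deg (g : Matrix (Fin 3) (Fin 3) K).det = 0 → g • x = x →
        ∀ i j, deg ((g : Matrix (Fin 3) (Fin 3) K) i j) ≤ ((n : ℤ) : WithBot ℤ) := by
  by_cases hx : ∃ y, y ≠ 0 ∧ deg y < 0
  · obtain ⟨u, d, hu⟩ := exists_unif h hx
    have hu0 := hu.ne h
    have hd0 : (0 : ℤ) < d := by exact_mod_cast hu.pos
    let act : MulAction (GL (Fin 3) K) (La h) := actLa h (MonoidHom.id _)
    have hmem : ∀ (g : GL (Fin 3) K) (L : La h) (x : Fin 3 → K), x ∈ (g • L).S ↔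
        Matrix.vecMul x (g : Matrix (Fin 3) (Fin 3) K) ∈ L.S := fun g L x => Iff.rfl
    have hcm : ∀ (g : GL (Fin 3) K) (L : La h), g • scI h u hu0 L = scI h u hu0 (g • L) := by
      intro g L
      apply La.ext'
      ext x
      show u⁻¹ • Matrix.vecMul x (g : Matrix (Fin 3) (Fin 3) K) ∈ L.S ↔
        Matrix.vecMul (u⁻¹ • x) (g : Matrix (Fin 3) (Fin 3) K) ∈ L.S
      rw [Matrix.smul_vecMul]
    have hbl := bl_la h hu
    let act' : MulAction (GL (Fin 3) K) (Vx (scI h u hu0)) := actVx hcm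
    have hs : ∀ (g : GL (Fin 3) K) (L : La h), g • cl (scI h u hu0) L = cl (scI h u hu0) (g • L) :=
      fun g L => rfl
    have hm : ∀ (g : GL (Fin 3) K) (L M : La h), L ≤ M → g • L ≤ g • M := fun g L M e x hx => e hx
    have hlt : ∀ (g : GL (Fin 3) K) (L M : La h), L < M → g • L < g • M := by
      intro g L M hLM
      refine lt_of_le_of_ne (hm g L M hLM.le) fun e => ?_
      exact hLM.ne (MulAction.injective g e)
    have hadj : ∀ (g : GL (Fin 3) K) (x y : Vx (scI h u hu0)),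
        (Pool.Agent.Run7.h390.BD.Tg hbl).Adj x y →
          (Pool.Agent.Run7.h390.BD.Tg hbl).Adj (g • x) (g • y) := by
      rintro g _ _ ⟨L, M, rfl, rfl, e⟩
      rw [hs, hs]
      refine adj_of (h := hbl) ⟨?_, hlt g M L e.2⟩
      rw [← hcm]
      exact hlt g _ _ e.1
    choose vf hvf using fun L : La h => exists_V hu L
    choose rp hrp using fun x : Vx (scI h u hu0) => cl_surj x
    have hτ : ∀ L : La h, ((vf (rp (cl (scI h u hu0) L)) / d : ℤ) : ZMod 3) = ((vf L / d : ℤ) : ZMod 3) := by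
      intro L
      obtain ⟨a, ha⟩ := cl_eq.1 (hrp (cl (scI h u hu0) L)).symm
      have h1 := (hvf L).zp hu a
      rw [ha] at h1
      have h2 := (hvf _).uniq h1
      rw [h2]
      have h3 : (vf L - 3 * a * d) / (d : ℤ) = vf L / d - 3 * a := by
        rw [Int.sub_ediv_of_dvd _ (Dvd.intro_left _ rfl), Int.mul_ediv_cancel _ hd0.ne']
      rw [h3, Int.cast_sub, Int.cast_mul]
      have h4 : ((3 : ℤ) : ZMod 3) = 0 := by decide
      rw [h4, zero_mul, sub_zero]
    refine ⟨Vx (scI h u hu0), act', Pool.Agent.Run7.h390.BD.Tg hbl,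
      Fl (Pool.Agent.Run7.h390.BD.Tg hbl), fun x => ((vf (rp x) / d : ℤ) : ZMod 3), tri_bl hbl,
      sc_bl hbl, Fl_Ac _ hadj, ?_, ?_, ?_⟩
    · rintro _ _ ⟨L, M, rfl, rfl, e⟩
      show ((vf (rp (cl (scI h u hu0) L)) / d : ℤ) : ZMod 3) ≠
        ((vf (rp (cl (scI h u hu0) M)) / d : ℤ) : ZMod 3)
      rw [hτ, hτ]
      have h1 := (hvf M).lt (hvf L) e.2
      have h2 := (hvf L).zp hu 1
      rw [zone] at h2
      have h3 := h2.lt (hvf M) e.1
      obtain ⟨l, hl⟩ := (hvf L).dvd hu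
      obtain ⟨m, hm⟩ := (hvf M).dvd hu
      rw [hl, hm] at h1 h3 ⊢
      rw [Int.mul_ediv_cancel_left _ hd0.ne', Int.mul_ediv_cancel_left _ hd0.ne', Ne,
        ZMod.intCast_eq_intCast_iff_dvd_sub]
      have h4 : m < l := lt_of_mul_lt_mul_left h1 hd0.le
      have h5 : l - 3 < m := by
        refine lt_of_mul_lt_mul_left (a := (d : ℤ)) ?_ hd0.le
        calc (d : ℤ) * (l - 3) = d * l - 3 * 1 * d := by ring
          _ < d * m := h3
      rintro ⟨k, hk⟩
      push_cast at hk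
      omega
    · intro g hg x
      obtain ⟨L, rfl⟩ := cl_surj x
      show ((vf (rp (g • cl (scI h u hu0) L)) / d : ℤ) : ZMod 3) =
        ((vf (rp (cl (scI h u hu0) L)) / d : ℤ) : ZMod 3)
      rw [hs, hτ, hτ, (hvf (g • L)).uniq ((hvf L).gla g hg)]
    · intro x
      obtain ⟨L, rfl⟩ := cl_surj x
      obtain ⟨m, hm'⟩ := L.bd
      obtain ⟨l, hl⟩ := L.op
      refine ⟨m + d * l, fun g hg hgx i j => ?_⟩
      rw [hs] at hgx
      obtain ⟨a, ha⟩ := cl_eq.1 hgx.symm
      have h1 := (hvf L).zp hu a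
      rw [ha] at h1
      have h2 := h1.uniq ((hvf L).gla g hg)
      have h3 : a = 0 := by
        have h4 : 3 * a * (d : ℤ) = 0 := by linarith
        rcases mul_eq_zero.1 h4 with h5 | h5
        · omega
        · exact absurd h5 hd0.ne'
      have h4 : g • L = L := by
        rw [← ha, h3, zzero]
      have h5 : ev i (u ^ l) ∈ (g • L).S := by
        rw [h4]
        refine hl _ fun j => ev_deg h i _ j ?_
        rw [deg_pow h hu.val]
        refine WithBot.coe_le_coe.2 ?_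
        nlinarith
      rw [hmem] at h5
      have h6 := hm' _ h5 j
      rw [ev_vm] at h6
      have h7 : ((g : Matrix (Fin 3) (Fin 3) K) i j) = u ^ (-(l : ℤ)) *
          (u ^ l * (g : Matrix (Fin 3) (Fin 3) K) i j) := by
        rw [← mul_assoc, ← zpow_natCast, ← zpow_add₀ hu0, neg_add_cancel, zpow_zero, one_mul]
      rw [h7]
      refine (deg_mul_le h (deg_zpow h hu.val _).le h6).trans (WithBot.coe_le_coe.2 ?_)
      push_cast
      nlinarith
  · push Not at hx
    have hall : ∀ x : K, deg x ≤ 0 := by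
      intro x
      by_cases hy : x = 0
      · rw [hy, h.zero]; exact bot_le
      · obtain ⟨z, hz⟩ := deg_int h hy
        have h1 := hx _ (inv_ne_zero hy)
        rw [deg_inv h hz] at h1
        have h2 : (0 : ℤ) ≤ -z := WithBot.coe_le_coe.1 h1
        rw [hz]
        exact_mod_cast (by omega : z ≤ 0)
    let act : MulAction (GL (Fin 3) K) Unit :=
      { smul := fun _ x => x, one_smul := fun _ => rfl, mul_smul := fun _ _ _ => rfl }
    have hno : ∀ x y : Unit, ¬ (⊥ : SimpleGraph Unit).Adj x y := fun x y e => e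
    refine ⟨Unit, act, ⊥, ∅, fun _ => 0, ?_, ?_, ?_, ?_, fun _ _ _ => rfl, ?_⟩
    · exact
        { adj := fun φ hφ => absurd hφ (Set.notMem_empty _)
          per := fun φ hφ => absurd hφ (Set.notMem_empty _)
          shift := fun φ hφ => absurd hφ (Set.notMem_empty _)
          refl := fun φ hφ => absurd hφ (Set.notMem_empty _)
          g3 := by
            rintro v a b c ⟨φ, hφ, _⟩
            exact absurd hφ (Set.notMem_empty _)
          g4 := by
            rintro v a b c d ⟨φ, hφ, _⟩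
            exact absurd hφ (Set.notMem_empty _)
          g5 := by
            rintro v a b c d e ⟨φ, hφ, _⟩
            exact absurd hφ (Set.notMem_empty _) }
    · refine ⟨?_, fun L _ c _ => ⟨fun _ => 1, fun x y e => absurd e (hno x y)⟩⟩
      exact SimpleGraph.Connected.mk fun x y => by cases x; cases y; exact SimpleGraph.Reachable.refl _
    · exact ⟨fun g x y e => absurd e (hno x y), fun g φ hφ => absurd hφ (Set.notMem_empty _)⟩
    · exact fun x y e => absurd e (hno x y)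
    · exact fun _ => ⟨0, fun g _ _ i j => by
        have := hall ((g : Matrix (Fin 3) (Fin 3) K) i j)
        exact_mod_cast this⟩

end vals

end Pool.Agent.Run7.h431.T3
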